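import Pool.Agent.N659.HB.Stm

/-!
The coefficients of a random sign expansion: the norm recursion (helper622).
-/

set_option autoImplicit false
set_option linter.unusedSectionVars false

namespace Pool.Agent.N622.HB

open Finset Pool.Agent.N659.HB

noncomputable section

section Gen

lemma mink {ι : Type} (s : Finset ι) (u v w : ι → ℝ) {a c : ℝ} (ha : 0 ≤ a) (hc : 0 ≤ c)
    (hu : ∀ i ∈ s, 0 ≤ u i) (h : ∀ i ∈ s, u i ≤ a * v i + c * w i) :
    √(∑ i ∈ s, u i ^ 2) ≤ a * √(∑ i ∈ s, v i ^ 2) + c * √(∑ i ∈ s, w i ^ 2) := by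
  have hV := Real.sq_sqrt (sum_nonneg (fun i _ => sq_nonneg (v i)) : 0 ≤ ∑ i ∈ s, v i ^ 2)
  have hW := Real.sq_sqrt (sum_nonneg (fun i _ => sq_nonneg (w i)) : 0 ≤ ∑ i ∈ s, w i ^ 2)
  have hcs := Real.sum_mul_le_sqrt_mul_sqrt s v w
  rw [Real.sqrt_le_left (by positivity)]
  set V := √(∑ i ∈ s, v i ^ 2)
  set W := √(∑ i ∈ s, w i ^ 2)
  calc ∑ i ∈ s, u i ^ 2 ≤ ∑ i ∈ s, (a * v i + c * w i) ^ 2 :=
        sum_le_sum fun i hi => pow_le_pow_left₀ (hu i hi) (h i hi) 2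
    _ = a ^ 2 * ∑ i ∈ s, v i ^ 2 + 2 * a * c * ∑ i ∈ s, v i * w i + c ^ 2 * ∑ i ∈ s, w i ^ 2 := by
        rw [mul_sum, mul_sum, mul_sum, ← sum_add_distrib, ← sum_add_distrib]
        exact sum_congr rfl fun i _ => by ring
    _ ≤ a ^ 2 * ∑ i ∈ s, v i ^ 2 + 2 * a * c * (V * W) + c ^ 2 * ∑ i ∈ s, w i ^ 2 := by
        gcongr
    _ = (a * V + c * W) ^ 2 := by
        rw [← hV, ← hW]
        ring

lemma cs {Λ : Type} (s : Finset Λ) (a g : Λ → ℂ) :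
    ‖∑ y ∈ s, a y * g y‖ ^ 2 ≤ (∑ y ∈ s, ‖a y‖ ^ 2) * ∑ y ∈ s, ‖g y‖ ^ 2 := by
  have h1 : ‖∑ y ∈ s, a y * g y‖ ≤ ∑ y ∈ s, ‖a y‖ * ‖g y‖ := by
    refine (norm_sum_le _ _).trans (le_of_eq ?_)
    exact sum_congr rfl fun y _ => norm_mul _ _
  calc ‖∑ y ∈ s, a y * g y‖ ^ 2 ≤ (∑ y ∈ s, ‖a y‖ * ‖g y‖) ^ 2 :=
        pow_le_pow_left₀ (norm_nonneg _) h1 2
    _ ≤ _ := sum_mul_sq_le_sq_mul_sq s _ _

end Gen

variable {Λ : Type} [Fintype Λ] [DecidableEq Λ]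

/-- the sites in the set -/
def inn (F : Λ → Finset Λ → ℂ) : ℝ := √(∑ S : Finset Λ, ∑ y ∈ S, ‖F y S‖ ^ 2)

/-- the sites outside of the set -/
def out (F : Λ → Finset Λ → ℂ) : ℝ := √(∑ S : Finset Λ, ∑ y ∈ Sᶜ, ‖F y S‖ ^ 2)

lemma inn_sq (F : Λ → Finset Λ → ℂ) : inn F ^ 2 = ∑ S : Finset Λ, ∑ y ∈ S, ‖F y S‖ ^ 2 :=
  Real.sq_sqrt (sum_nonneg fun _ _ => sum_nonneg fun _ _ => sq_nonneg _)

lemma out_sq (F : Λ → Finset Λ → ℂ) : out F ^ 2 = ∑ S : Finset Λ, ∑ y ∈ Sᶜ, ‖F y S‖ ^ 2 :=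
  Real.sq_sqrt (sum_nonneg fun _ _ => sum_nonneg fun _ _ => sq_nonneg _)

lemma inn_nonneg (F : Λ → Finset Λ → ℂ) : 0 ≤ inn F := Real.sqrt_nonneg _

lemma out_nonneg (F : Λ → Finset Λ → ℂ) : 0 ≤ out F := Real.sqrt_nonneg _

lemma total (F : Λ → Finset Λ → ℂ) :
    ∑ y, ∑ S : Finset Λ, ‖F y S‖ ^ 2 = inn F ^ 2 + out F ^ 2 := by
  rw [sum_comm, inn_sq, out_sq, ← sum_add_distrib]
  exact sum_congr rfl fun S _ => (sum_add_sum_compl S _).symm

/-- the bijection -/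
lemma swap (φ : Λ → Finset Λ → ℝ) :
    ∑ S : Finset Λ, ∑ y ∈ S, φ y (symmDiff S {y}) = ∑ S : Finset Λ, ∑ y ∈ Sᶜ, φ y S := by
  have h1 : ∀ ψ : Λ → Finset Λ → ℝ, ∀ P : Finset Λ → Finset Λ,
      ∑ S : Finset Λ, ∑ y ∈ P S, ψ y S = ∑ y, ∑ S : Finset Λ, if y ∈ P S then ψ y S else 0 := by
    intro ψ P
    rw [sum_comm]
    refine sum_congr rfl fun S _ => ?_
    rw [← sum_filter]
    congr 1
    ext y
    simp
  rw [h1 (fun y S => φ y (symmDiff S {y})) (fun S => S), h1 φ (fun S => Sᶜ)]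
  refine sum_congr rfl fun y _ => ?_
  have hinv : Function.Involutive fun S : Finset Λ => symmDiff S {y} := fun S => by
    simp only
    exact symmDiff_symmDiff_cancel_right _ _
  refine Fintype.sum_equiv (Function.Involutive.toPerm _ hinv) _ _ fun S => ?_
  have h2 : Function.Involutive.toPerm _ hinv S = symmDiff S {y} := rfl
  rw [h2]
  by_cases hy : y ∈ S
  · rw [if_pos hy, if_pos]
    simp [mem_symmDiff, hy]
  · rw [if_neg hy, if_neg]
    simp [mem_symmDiff, hy]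

/-- the bijection, second form -/
lemma swap' (φ : Λ → Finset Λ → ℝ) :
    ∑ S : Finset Λ, ∑ y ∈ Sᶜ, φ y (symmDiff S {y}) = ∑ S : Finset Λ, ∑ y ∈ S, φ y S := by
  have h := swap (fun y S => φ y (symmDiff S {y}))
  simp only [symmDiff_symmDiff_cancel_right] at h
  exact h.symm

section Step

variable {T : Λ → Λ → ℂ} {M θ b : ℝ}

lemma split_sum (S : Finset Λ) (a g : Λ → ℂ) :
    ‖∑ y, a y * g y‖ ≤ 1 * ‖∑ y ∈ S, a y * g y‖ + 1 * ‖∑ y ∈ Sᶜ, a y * g y‖ := by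
  rw [← sum_add_sum_compl S, one_mul, one_mul]
  exact norm_add_le _ _

lemma step_out (hM : 0 ≤ M)
    (hop : ∀ u : Λ → ℂ, ∑ x, ‖∑ y, T x y * u y‖ ^ 2 ≤ M ^ 2 * ∑ y, ‖u y‖ ^ 2)
    (hθ : 0 ≤ θ) (hcol : ∀ y, ∑ x, ‖T x y‖ ^ 2 ≤ θ) (g : Λ → ℂ) (S : Finset Λ) {m : ℕ}
    (hm : S.card ≤ m) :
    √(∑ y ∈ Sᶜ, ‖∑ y', T y y' * g y'‖ ^ 2) ≤
      √(m * θ) * √(∑ y ∈ S, ‖g y‖ ^ 2) + M * √(∑ y ∈ Sᶜ, ‖g y‖ ^ 2) := by
  have h1 := mink Sᶜ (fun y => ‖∑ y', T y y' * g y'‖) (fun y => ‖∑ y' ∈ S, T y y' * g y'‖)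
    (fun y => ‖∑ y' ∈ Sᶜ, T y y' * g y'‖) zero_le_one zero_le_one (fun _ _ => norm_nonneg _)
    (fun y _ => split_sum S (T y) g)
  rw [one_mul, one_mul] at h1
  refine h1.trans (add_le_add ?_ ?_)
  · rw [← Real.sqrt_mul (by positivity)]
    apply Real.sqrt_le_sqrt
    calc ∑ y ∈ Sᶜ, ‖∑ y' ∈ S, T y y' * g y'‖ ^ 2
        ≤ ∑ y ∈ Sᶜ, (∑ y' ∈ S, ‖T y y'‖ ^ 2) * ∑ y' ∈ S, ‖g y'‖ ^ 2 :=
          sum_le_sum fun y _ => cs S (T y) g
      _ = (∑ y ∈ Sᶜ, ∑ y' ∈ S, ‖T y y'‖ ^ 2) * ∑ y' ∈ S, ‖g y'‖ ^ 2 := by rw [sum_mul]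
      _ ≤ (m * θ) * ∑ y' ∈ S, ‖g y'‖ ^ 2 := by
          apply mul_le_mul_of_nonneg_right _ (sum_nonneg fun _ _ => sq_nonneg _)
          rw [sum_comm]
          calc ∑ y' ∈ S, ∑ y ∈ Sᶜ, ‖T y y'‖ ^ 2 ≤ ∑ y' ∈ S, θ := by
                refine sum_le_sum fun y' _ => le_trans ?_ (hcol y')
                exact sum_le_sum_of_subset_of_nonneg (subset_univ _) fun _ _ _ => sq_nonneg _
            _ = S.card * θ := by rw [sum_const, nsmul_eq_mul]
            _ ≤ m * θ := by gcongr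
  · rw [← Real.sqrt_sq hM, ← Real.sqrt_mul (sq_nonneg M)]
    apply Real.sqrt_le_sqrt
    have h2 := hop (fun y => if y ∈ Sᶜ then g y else 0)
    have h3 : ∀ y, ∑ y', T y y' * (if y' ∈ Sᶜ then g y' else 0) = ∑ y' ∈ Sᶜ, T y y' * g y' := by
      intro y
      simp only [mul_ite, mul_zero]
      rw [← sum_filter]
      congr 1
      ext y'
      simp
    have h4 : ∑ y, ‖(if y ∈ Sᶜ then g y else 0)‖ ^ 2 = ∑ y ∈ Sᶜ, ‖g y‖ ^ 2 := by
      rw [← sum_add_sum_compl Sᶜ]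
      have h5 : ∑ y ∈ Sᶜᶜ, ‖(if y ∈ Sᶜ then g y else 0)‖ ^ 2 = 0 := by
        apply sum_eq_zero
        intro y hy
        rw [if_neg (by rw [mem_compl] at hy; exact hy)]
        simp
      rw [h5, add_zero]
      refine sum_congr rfl fun y hy => ?_
      rw [if_pos hy]
    rw [h4] at h2
    refine le_trans ?_ h2
    simp only [h3]
    exact sum_le_sum_of_subset_of_nonneg (subset_univ _) fun _ _ _ => sq_nonneg _

lemma step_in (hb : 0 ≤ b) (hbd : ∀ x y, ‖T x y‖ ≤ b) (hθ : 0 ≤ θ)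
    (hrow : ∀ x, ∑ y, ‖T x y‖ ^ 2 ≤ θ) (g : Λ → ℂ) (S : Finset Λ) {m : ℕ} (hm : S.card ≤ m) :
    √(∑ y ∈ S, ‖∑ y', T y y' * g y'‖ ^ 2) ≤
      (m * b) * √(∑ y ∈ S, ‖g y‖ ^ 2) + √(m * θ) * √(∑ y ∈ Sᶜ, ‖g y‖ ^ 2) := by
  have h1 := mink S (fun y => ‖∑ y', T y y' * g y'‖) (fun y => ‖∑ y' ∈ S, T y y' * g y'‖)
    (fun y => ‖∑ y' ∈ Sᶜ, T y y' * g y'‖) zero_le_one zero_le_one (fun _ _ => norm_nonneg _)
    (fun y _ => split_sum S (T y) g)
  rw [one_mul, one_mul] at h1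
  have hmr : (S.card : ℝ) ≤ m := by exact_mod_cast hm
  refine h1.trans (add_le_add ?_ ?_)
  · have hmb : (0 : ℝ) ≤ m * b := by positivity
    rw [← Real.sqrt_sq hmb, ← Real.sqrt_mul (sq_nonneg _)]
    apply Real.sqrt_le_sqrt
    have h2 : ∀ y ∈ S, ‖∑ y' ∈ S, T y y' * g y'‖ ^ 2 ≤ (m * b ^ 2) * ∑ y' ∈ S, ‖g y'‖ ^ 2 := by
      intro y _
      refine (cs S (T y) g).trans ?_
      apply mul_le_mul_of_nonneg_right _ (sum_nonneg fun _ _ => sq_nonneg _)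
      calc ∑ y' ∈ S, ‖T y y'‖ ^ 2 ≤ ∑ y' ∈ S, b ^ 2 :=
            sum_le_sum fun y' _ => pow_le_pow_left₀ (norm_nonneg _) (hbd y y') 2
        _ = S.card * b ^ 2 := by rw [sum_const, nsmul_eq_mul]
        _ ≤ m * b ^ 2 := by gcongr
    calc ∑ y ∈ S, ‖∑ y' ∈ S, T y y' * g y'‖ ^ 2
        ≤ ∑ y ∈ S, (m * b ^ 2) * ∑ y' ∈ S, ‖g y'‖ ^ 2 := sum_le_sum h2
      _ = S.card * ((m * b ^ 2) * ∑ y' ∈ S, ‖g y'‖ ^ 2) := by rw [sum_const, nsmul_eq_mul]
      _ ≤ m * ((m * b ^ 2) * ∑ y' ∈ S, ‖g y'‖ ^ 2) := by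
          apply mul_le_mul_of_nonneg_right hmr
          have := sum_nonneg (fun y _ => sq_nonneg ‖g y‖ : ∀ y ∈ S, 0 ≤ ‖g y‖ ^ 2)
          positivity
      _ = _ := by ring
  · rw [← Real.sqrt_mul (by positivity)]
    apply Real.sqrt_le_sqrt
    have h2 : ∀ y ∈ S, ‖∑ y' ∈ Sᶜ, T y y' * g y'‖ ^ 2 ≤ θ * ∑ y' ∈ Sᶜ, ‖g y'‖ ^ 2 := by
      intro y _
      refine (cs Sᶜ (T y) g).trans ?_
      apply mul_le_mul_of_nonneg_right _ (sum_nonneg fun _ _ => sq_nonneg _)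
      exact (sum_le_sum_of_subset_of_nonneg (subset_univ _) fun _ _ _ => sq_nonneg _).trans
        (hrow y)
    calc ∑ y ∈ S, ‖∑ y' ∈ Sᶜ, T y y' * g y'‖ ^ 2
        ≤ ∑ y ∈ S, θ * ∑ y' ∈ Sᶜ, ‖g y'‖ ^ 2 := sum_le_sum h2
      _ = S.card * (θ * ∑ y' ∈ Sᶜ, ‖g y'‖ ^ 2) := by rw [sum_const, nsmul_eq_mul]
      _ ≤ m * (θ * ∑ y' ∈ Sᶜ, ‖g y'‖ ^ 2) := by
          apply mul_le_mul_of_nonneg_right hmr
          have := sum_nonneg (fun y _ => sq_nonneg ‖g y‖ : ∀ y ∈ Sᶜ, 0 ≤ ‖g y‖ ^ 2)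
          positivity
      _ = _ := by ring

/-- one step -/
def nx (T : Λ → Λ → ℂ) (G : Λ → Finset Λ → ℂ) : Λ → Finset Λ → ℂ :=
  fun y S => ∑ y', T y y' * G y' (symmDiff S {y})

lemma mink_sets {ι : Type} (s : Finset ι) (x v w : ι → ℝ) {a c : ℝ} (ha : 0 ≤ a) (hc : 0 ≤ c)
    (hx : ∀ i ∈ s, 0 ≤ x i) (hv : ∀ i ∈ s, 0 ≤ v i) (hw : ∀ i ∈ s, 0 ≤ w i)
    (h : ∀ i ∈ s, √(x i) ≤ a * √(v i) + c * √(w i)) :
    √(∑ i ∈ s, x i) ≤ a * √(∑ i ∈ s, v i) + c * √(∑ i ∈ s, w i) := by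
  have h1 := mink s (fun i => √(x i)) (fun i => √(v i)) (fun i => √(w i)) ha hc
    (fun _ _ => Real.sqrt_nonneg _) h
  rw [sum_congr rfl fun i hi => Real.sq_sqrt (hx i hi),
    sum_congr rfl fun i hi => Real.sq_sqrt (hv i hi),
    sum_congr rfl fun i hi => Real.sq_sqrt (hw i hi)] at h1
  exact h1

lemma nx_inn (hM : 0 ≤ M)
    (hop : ∀ u : Λ → ℂ, ∑ x, ‖∑ y, T x y * u y‖ ^ 2 ≤ M ^ 2 * ∑ y, ‖u y‖ ^ 2)
    (hθ : 0 ≤ θ) (hcol : ∀ y, ∑ x, ‖T x y‖ ^ 2 ≤ θ) {G : Λ → Finset Λ → ℂ} {m : ℕ}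
    (hG : ∀ y S, m < S.card → G y S = 0) :
    inn (nx T G) ≤ √(m * θ) * inn G + M * out G := by
  have h1 := swap (fun y S => ‖∑ y', T y y' * G y' S‖ ^ 2)
  unfold inn nx
  rw [h1]
  refine mink_sets univ _ _ _ (Real.sqrt_nonneg _) hM (fun _ _ => sum_nonneg fun _ _ => sq_nonneg _)
    (fun _ _ => sum_nonneg fun _ _ => sq_nonneg _) (fun _ _ => sum_nonneg fun _ _ => sq_nonneg _)
    fun S _ => ?_
  rcases le_or_gt S.card m with h | h
  · exact step_out hM hop hθ hcol (fun y => G y S) S h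
  · have h2 : ∀ y, ∑ y', T y y' * G y' S = 0 := fun y => sum_eq_zero fun y' _ => by
      rw [hG y' S h, mul_zero]
    simp only [h2]
    simp only [norm_zero, ne_eq, OfNat.ofNat_ne_zero, not_false_eq_true, zero_pow, sum_const_zero,
      Real.sqrt_zero]
    positivity

lemma nx_out (hb : 0 ≤ b) (hbd : ∀ x y, ‖T x y‖ ≤ b) (hθ : 0 ≤ θ)
    (hrow : ∀ x, ∑ y, ‖T x y‖ ^ 2 ≤ θ) {G : Λ → Finset Λ → ℂ} {m : ℕ}
    (hG : ∀ y S, m < S.card → G y S = 0) :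
    out (nx T G) ≤ (m * b) * inn G + √(m * θ) * out G := by
  have h1 := swap' (fun y S => ‖∑ y', T y y' * G y' S‖ ^ 2)
  unfold out nx
  rw [h1]
  refine mink_sets univ _ _ _ (by positivity) (Real.sqrt_nonneg _)
    (fun _ _ => sum_nonneg fun _ _ => sq_nonneg _)
    (fun _ _ => sum_nonneg fun _ _ => sq_nonneg _) (fun _ _ => sum_nonneg fun _ _ => sq_nonneg _)
    fun S _ => ?_
  rcases le_or_gt S.card m with h | h
  · exact step_in hb hbd hθ hrow (fun y => G y S) S h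
  · have h2 : ∀ y, ∑ y', T y y' * G y' S = 0 := fun y => sum_eq_zero fun y' _ => by
      rw [hG y' S h, mul_zero]
    simp only [h2]
    simp only [norm_zero, ne_eq, OfNat.ofNat_ne_zero, not_false_eq_true, zero_pow, sum_const_zero,
      Real.sqrt_zero]
    positivity

/-- the mean -/
lemma nx_empty (hb : 0 ≤ b) (hbd : ∀ x y, ‖T x y‖ ≤ b) (hθ : 0 ≤ θ)
    (hrow : ∀ x, ∑ y, ‖T x y‖ ^ 2 ≤ θ) (G : Λ → Finset Λ → ℂ) :
    √(∑ y, ‖nx T G y ∅‖ ^ 2) ≤ b * inn G + √θ * out G := by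
  have h0 : ∀ y, nx T G y ∅ = ∑ y', T y y' * G y' {y} := by
    intro y
    unfold nx
    have : symmDiff (∅ : Finset Λ) {y} = {y} := by simp
    rw [this]
  have hinj : Function.Injective fun y : Λ => ({y} : Finset Λ) := singleton_injective
  have h1 : ∀ φ : Finset Λ → ℝ, (∀ S, 0 ≤ φ S) → ∑ y : Λ, φ {y} ≤ ∑ S : Finset Λ, φ S := by
    intro φ hφ
    have h2 : ∑ y : Λ, φ {y} = ∑ S ∈ univ.map ⟨fun y : Λ => ({y} : Finset Λ), hinj⟩, φ S := by
      rw [sum_map]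
      rfl
    rw [h2]
    exact sum_le_sum_of_subset_of_nonneg (subset_univ _) fun _ _ _ => hφ _
  have h2 := mink (univ : Finset Λ) (fun y => ‖nx T G y ∅‖) (fun y => ‖G y {y}‖)
    (fun y => √(∑ y' ∈ ({y} : Finset Λ)ᶜ, ‖G y' {y}‖ ^ 2)) hb (Real.sqrt_nonneg θ)
    (fun _ _ => norm_nonneg _) (fun y _ => by
      rw [h0]
      refine (split_sum {y} (T y) (fun y' => G y' {y})).trans ?_
      rw [one_mul, one_mul, sum_singleton, norm_mul]
      refine add_le_add (mul_le_mul_of_nonneg_right (hbd y y) (norm_nonneg _)) ?_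
      rw [← Real.sqrt_mul hθ, ← Real.sqrt_sq (norm_nonneg _)]
      apply Real.sqrt_le_sqrt
      refine (cs _ (T y) (fun y' => G y' {y})).trans ?_
      apply mul_le_mul_of_nonneg_right _ (sum_nonneg fun _ _ => sq_nonneg _)
      exact (sum_le_sum_of_subset_of_nonneg (subset_univ _) fun _ _ _ => sq_nonneg _).trans
        (hrow y))
  refine h2.trans (add_le_add (mul_le_mul_of_nonneg_left ?_ hb)
    (mul_le_mul_of_nonneg_left ?_ (Real.sqrt_nonneg θ)))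
  · apply Real.sqrt_le_sqrt
    have h3 := h1 (fun S => ∑ y ∈ S, ‖G y S‖ ^ 2) (fun _ => sum_nonneg fun _ _ => sq_nonneg _)
    simpa using h3
  · apply Real.sqrt_le_sqrt
    have h3 := h1 (fun S => ∑ y ∈ Sᶜ, ‖G y S‖ ^ 2) (fun _ => sum_nonneg fun _ _ => sq_nonneg _)
    refine le_trans (le_of_eq ?_) h3
    refine sum_congr rfl fun y _ => ?_
    rw [Real.sq_sqrt (sum_nonneg fun _ _ => sq_nonneg _)]

end Step

lemma gc_supp (T : Λ → Λ → ℂ) (f : Λ → ℂ) (k : ℕ) :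
    ∀ y S, k + 1 < S.card → gc T f k y S = 0 := by
  induction k with
  | zero =>
    intro y S hS
    unfold gc
    rw [if_neg]
    rintro rfl
    simp at hS
  | succ k ih =>
    intro y S hS
    unfold gc
    refine sum_eq_zero fun y' _ => ?_
    rw [ih y' _ ?_, mul_zero]
    have h1 : S ⊆ symmDiff S {y} ∪ {y} := by
      intro z hz
      rw [mem_union, mem_symmDiff]
      by_cases hzy : z ∈ ({y} : Finset Λ)
      · exact Or.inr hzy
      · exact Or.inl (Or.inl ⟨hz, hzy⟩)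
    have h2 := (card_le_card h1).trans (card_union_le _ _)
    rw [card_singleton] at h2
    omega

lemma gc_succ (T : Λ → Λ → ℂ) (f : Λ → ℂ) (k : ℕ) : gc T f (k + 1) = nx T (gc T f k) := rfl

lemma inn_zero (T : Λ → Λ → ℂ) (f : Λ → ℂ) : inn (gc T f 0) = √(∑ y, ‖f y‖ ^ 2) := by
  unfold inn
  congr 1
  have h1 : ∀ S : Finset Λ, ∑ y ∈ S, ‖gc T f 0 y S‖ ^ 2 =
      ∑ y, if S = {y} then ‖f y‖ ^ 2 else 0 := by
    intro S
    rw [← sum_add_sum_compl S (fun y => if S = {y} then ‖f y‖ ^ 2 else 0)]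
    have h2 : ∑ y ∈ Sᶜ, (if S = {y} then ‖f y‖ ^ 2 else 0) = 0 := by
      apply sum_eq_zero
      intro y hy
      rw [if_neg]
      rintro rfl
      simp at hy
    rw [h2, add_zero]
    refine sum_congr rfl fun y _ => ?_
    unfold gc
    split_ifs <;> simp
  rw [sum_congr rfl fun S _ => h1 S, sum_comm]
  refine sum_congr rfl fun y _ => ?_
  simp

lemma out_zero (T : Λ → Λ → ℂ) (f : Λ → ℂ) : out (gc T f 0) = 0 := by
  unfold out
  rw [Real.sqrt_eq_zero']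
  apply le_of_eq
  apply sum_eq_zero
  intro S _
  apply sum_eq_zero
  intro y hy
  unfold gc
  rw [if_neg]
  · simp
  · rintro rfl
    simp at hy

theorem main : S_CHC := by
  intro Λ _ _ T M θ b κ hM hb hκ hop hrow hcol hbd hθM hbM hκ2 f k hk
  rcases isEmpty_or_nonempty Λ with hΛ | ⟨⟨x₀⟩⟩
  · simp
  have hθ : 0 ≤ θ := (sum_nonneg fun _ _ => sq_nonneg _).trans (hrow x₀)
  rcases eq_or_lt_of_le hb with hb0 | hb0
  · -- `T = 0`
    have hT : ∀ x y, T x y = 0 := fun x y => by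
      have h1 := hbd x y
      rw [← hb0] at h1
      exact norm_le_zero_iff.mp h1
    have hG : ∀ y S, gc T f k y S = 0 := by
      intro y S
      obtain ⟨j, rfl⟩ : ∃ j, k = j + 1 := ⟨k - 1, by omega⟩
      unfold gc
      exact sum_eq_zero fun y' _ => by rw [hT, zero_mul]
    have hF : 0 ≤ ∑ y, ‖f y‖ ^ 2 := sum_nonneg fun _ _ => sq_nonneg _
    simp only [hG, norm_zero, ne_eq, OfNat.ofNat_ne_zero, not_false_eq_true, zero_pow,
      sum_const_zero]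
    exact ⟨by positivity, by positivity⟩
  have hM0 : 0 < M := lt_of_lt_of_le hb0 hbM
  have hκ0 : 0 < κ := by
    rcases eq_or_lt_of_le hκ with h | h
    · exfalso
      rw [← h] at hκ2
      have : 0 < b * M := by positivity
      linarith [hκ2]
    · exact h
  set N : ℝ := √(∑ y, ‖f y‖ ^ 2) with hN
  have hN0 : 0 ≤ N := Real.sqrt_nonneg _
  have hN2 : N ^ 2 = ∑ y, ‖f y‖ ^ 2 := Real.sq_sqrt (sum_nonneg fun _ _ => sq_nonneg _)
  have hsθ : ∀ m : ℕ, 1 ≤ m → √(m * θ) ≤ m * κ := by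
    intro m hm
    have hm1 : (1 : ℝ) ≤ m := by exact_mod_cast hm
    rw [Real.sqrt_le_left (by positivity)]
    calc (m : ℝ) * θ ≤ m * (b * M) := by gcongr
      _ = m * κ ^ 2 := by rw [hκ2]
      _ ≤ m * (m * κ ^ 2) := by
          have : κ ^ 2 ≤ m * κ ^ 2 := le_mul_of_one_le_left (sq_nonneg _) hm1
          gcongr
      _ = (m * κ) ^ 2 := by ring
  -- the recursion
  have key : ∀ j : ℕ, inn (gc T f j) ≤ (2 * κ) ^ j * j.factorial * N ∧
      out (gc T f j) ≤ κ / M * ((2 * κ) ^ j * j.factorial * N) := by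
    intro j
    induction j with
    | zero =>
      rw [inn_zero, out_zero]
      simp only [pow_zero, Nat.factorial_zero, Nat.cast_one, one_mul]
      exact ⟨le_rfl, by positivity⟩
    | succ j ih =>
      obtain ⟨h1, h2⟩ := ih
      set P : ℝ := (2 * κ) ^ j * j.factorial * N with hP
      have hP0 : 0 ≤ P := by positivity
      have e : (2 * κ) ^ (j + 1) * (j + 1).factorial * N = 2 * ((j + 1 : ℕ) * κ) * P := by
        rw [hP, Nat.factorial_succ]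
        push_cast
        ring
      rw [e]
      have hm := hsθ (j + 1) (by omega)
      have hj1 : (1 : ℝ) ≤ (j + 1 : ℕ) := by
        push_cast
        have : (0 : ℝ) ≤ j := Nat.cast_nonneg j
        linarith
      have hs := gc_supp T f j
      rw [gc_succ]
      constructor
      · refine (nx_inn hM hop hθ hcol hs).trans ?_
        calc √((j + 1 : ℕ) * θ) * inn (gc T f j) + M * out (gc T f j)
            ≤ ((j + 1 : ℕ) * κ) * P + M * (κ / M * P) := by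
              have := inn_nonneg (gc T f j)
              gcongr
          _ = ((j + 1 : ℕ) * κ) * P + κ * P := by
              field_simp
          _ ≤ ((j + 1 : ℕ) * κ) * P + ((j + 1 : ℕ) * κ) * P := by
              have : κ ≤ (j + 1 : ℕ) * κ := le_mul_of_one_le_left hκ0.le hj1
              gcongr
          _ = _ := by ring
      · refine (nx_out hb hbd hθ hrow hs).trans ?_
        calc ((j + 1 : ℕ) * b) * inn (gc T f j) + √((j + 1 : ℕ) * θ) * out (gc T f j)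
            ≤ ((j + 1 : ℕ) * b) * P + ((j + 1 : ℕ) * κ) * (κ / M * P) := by
              have := out_nonneg (gc T f j)
              gcongr
          _ = κ / M * (2 * ((j + 1 : ℕ) * κ) * P) := by
              have h3 : b = κ ^ 2 / M := by
                rw [hκ2]
                field_simp
              rw [h3]
              ring
  have hfac : ∀ j : ℕ, j ≤ k → (2 * κ) ^ j * (j.factorial : ℝ) ≤ (2 * k * κ) ^ j := by
    intro j hj
    have h1 : (j.factorial : ℝ) ≤ (k : ℝ) ^ j := by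
      have h2 : j.factorial ≤ j ^ j := Nat.factorial_le_pow j
      have h3 : j ^ j ≤ k ^ j := Nat.pow_le_pow_left hj j
      exact_mod_cast h2.trans h3
    calc (2 * κ) ^ j * (j.factorial : ℝ) ≤ (2 * κ) ^ j * (k : ℝ) ^ j := by gcongr
      _ = (2 * k * κ) ^ j := by
          rw [← mul_pow]
          congr 1
          ring
  have hF : 0 ≤ ∑ y, ‖f y‖ ^ 2 := sum_nonneg fun _ _ => sq_nonneg _
  constructor
  · rw [total]
    obtain ⟨h1, h2⟩ := key k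
    have h3 := hfac k le_rfl
    have h4 : (2 * κ) ^ k * (k.factorial : ℝ) * N ≤ (2 * k * κ) ^ k * N := by gcongr
    have h5 : inn (gc T f k) ≤ (2 * k * κ) ^ k * N := h1.trans h4
    have h6 : κ / M ≤ 1 := by
      rw [div_le_one hM0]
      have : κ ^ 2 ≤ M ^ 2 := by
        rw [hκ2, sq]
        gcongr
      exact (sq_le_sq₀ hκ0.le hM0.le).mp this
    have h7 : out (gc T f k) ≤ (2 * k * κ) ^ k * N := by
      refine h2.trans ?_
      calc κ / M * ((2 * κ) ^ k * (k.factorial : ℝ) * N) ≤ 1 * ((2 * k * κ) ^ k * N) := by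
            gcongr
        _ = _ := one_mul _
    have h8 := pow_le_pow_left₀ (inn_nonneg _) h5 2
    have h9 := pow_le_pow_left₀ (out_nonneg _) h7 2
    rw [← hN2]
    calc inn (gc T f k) ^ 2 + out (gc T f k) ^ 2
        ≤ ((2 * k * κ) ^ k * N) ^ 2 + ((2 * k * κ) ^ k * N) ^ 2 := add_le_add h8 h9
      _ = _ := by ring
  · obtain ⟨j, rfl⟩ : ∃ j, k = j + 1 := ⟨k - 1, by omega⟩
    obtain ⟨h1, h2⟩ := key j
    have h3 := hfac j (by omega)
    rw [Nat.add_sub_cancel, gc_succ]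
    have h4 := nx_empty hb hbd hθ hrow (gc T f j)
    have h5 : √θ ≤ κ := by
      rw [Real.sqrt_le_left hκ0.le, hκ2]
      exact hθM
    have h6 : √(∑ y, ‖nx T (gc T f j) y ∅‖ ^ 2) ≤ 2 * b * (2 * (j + 1 : ℕ) * κ) ^ j * N := by
      refine h4.trans ?_
      have h7 : κ * (κ / M) = b := by
        have : κ * (κ / M) = κ ^ 2 / M := by ring
        rw [this, hκ2]
        field_simp
      have h8 : (2 * κ) ^ j * (j.factorial : ℝ) * N ≤ (2 * (j + 1 : ℕ) * κ) ^ j * N := by gcongr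
      calc b * inn (gc T f j) + √θ * out (gc T f j)
          ≤ b * ((2 * κ) ^ j * j.factorial * N) +
            κ * (κ / M * ((2 * κ) ^ j * j.factorial * N)) := by
            have := out_nonneg (gc T f j)
            gcongr
        _ = 2 * b * ((2 * κ) ^ j * j.factorial * N) := by
            rw [← mul_assoc κ, h7]
            ring
        _ ≤ 2 * b * ((2 * (j + 1 : ℕ) * κ) ^ j * N) := by gcongr
        _ = _ := by ring
    have h7 := pow_le_pow_left₀ (Real.sqrt_nonneg _) h6 2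
    rw [Real.sq_sqrt (sum_nonneg fun _ _ => sq_nonneg _)] at h7
    refine h7.trans (le_of_eq ?_)
    rw [← hN2]
    ring

end

end Pool.Agent.N622.HB
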